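import Mathlib
import Pool.Agent.H97R2.BP.Defs

open scoped ComplexOrder InnerProductSpace ComplexConjugate TensorProduct
open Finset H759R2.Kad H710R2.DP

noncomputable section

namespace H97R2.BP

namespace GL971

variable {H : Type} [NormedAddCommGroup H] [InnerProductSpace ℂ H] [CompleteSpace H]

theorem pr_orth {p : H →L[ℂ] H} (hp : IsPr p) (ζ η : H) (h : p η = 0) : ⟪p ζ, η⟫_ℂ = 0 := by
  have h1 : ContinuousLinearMap.adjoint p = p := hp.1
  rw [← ContinuousLinearMap.adjoint_inner_right, h1, h, inner_zero_right]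

theorem norm_add_sq_pr {p : H →L[ℂ] H} (hp : IsPr p) (u v : H) (hu : p u = u) (hv : p v = 0) :
    ‖u + v‖ ^ 2 = ‖u‖ ^ 2 + ‖v‖ ^ 2 := by
  have h : ⟪u, v⟫_ℂ = 0 := by
    have := pr_orth hp u v hv
    rwa [hu] at this
  have h2 := norm_add_sq_eq_norm_sq_add_norm_sq_of_inner_eq_zero u v h
  simp only [sq]
  exact h2

theorem pr_pr {p : H →L[ℂ] H} (hp : IsPr p) (ζ : H) : p (p ζ) = p ζ := by
  have := congrArg (fun T : H →L[ℂ] H => T ζ) hp.2
  exact this

theorem norm_sq_split {p : H →L[ℂ] H} (hp : IsPr p) (ζ : H) :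
    ‖ζ‖ ^ 2 = ‖p ζ‖ ^ 2 + ‖ζ - p ζ‖ ^ 2 := by
  have h := norm_add_sq_pr hp (p ζ) (ζ - p ζ) (pr_pr hp ζ) (by rw [map_sub, pr_pr hp, sub_self])
  rwa [add_sub_cancel] at h

theorem norm_compl_le {p : H →L[ℂ] H} (hp : IsPr p) (ζ : H) : ‖ζ - p ζ‖ ≤ ‖ζ‖ := by
  have h := norm_sq_split hp ζ
  apply abs_le_of_sq_le_sq' _ (norm_nonneg _) |>.2
  nlinarith [sq_nonneg ‖p ζ‖]

theorem norm_add_le_orth {p A B : H →L[ℂ] H} (hp : IsPr p) (hA1 : p * A = A) (hA2 : A * p = A)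
    (hB1 : p * B = 0) (hB2 : B * p = 0) {c : ℝ} (hc : 0 ≤ c) (hA : ‖A‖ ≤ c) (hB : ‖B‖ ≤ c) :
    ‖A + B‖ ≤ c := by
  refine ContinuousLinearMap.opNorm_le_bound _ hc fun ζ => ?_
  have e1 : A ζ = A (p ζ) := by
    have := congrArg (fun T : H →L[ℂ] H => T ζ) hA2
    exact this.symm
  have e2 : B ζ = B (ζ - p ζ) := by
    have h : B (p ζ) = 0 := congrArg (fun T : H →L[ℂ] H => T ζ) hB2
    rw [map_sub, h, sub_zero]
  have h1 : ‖A ζ‖ ≤ c * ‖p ζ‖ := by
    rw [e1]
    exact (A.le_opNorm _).trans (mul_le_mul_of_nonneg_right hA (norm_nonneg _))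
  have h2 : ‖B ζ‖ ≤ c * ‖ζ - p ζ‖ := by
    rw [e2]
    exact (B.le_opNorm _).trans (mul_le_mul_of_nonneg_right hB (norm_nonneg _))
  have h3 : ‖(A + B) ζ‖ ^ 2 = ‖A ζ‖ ^ 2 + ‖B ζ‖ ^ 2 := by
    refine norm_add_sq_pr hp (A ζ) (B ζ) ?_ ?_
    · exact congrArg (fun T : H →L[ℂ] H => T ζ) hA1
    · exact congrArg (fun T : H →L[ℂ] H => T ζ) hB1
  have h4 := norm_sq_split hp ζ
  have h5 : ‖(A + B) ζ‖ ^ 2 ≤ (c * ‖ζ‖) ^ 2 := by
    rw [h3, mul_pow, h4, mul_add, ← mul_pow, ← mul_pow]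
    exact add_le_add (pow_le_pow_left₀ (norm_nonneg _) h1 2)
      (pow_le_pow_left₀ (norm_nonneg _) h2 2)
  exact (abs_le_of_sq_le_sq' h5 (by positivity)).2

theorem norm_pr_le {p : H →L[ℂ] H} (hp : IsPr p) : ‖p‖ ≤ 1 := by
  refine ContinuousLinearMap.opNorm_le_bound _ zero_le_one fun ζ => ?_
  have h := norm_sq_split hp ζ
  rw [one_mul]
  apply abs_le_of_sq_le_sq' _ (norm_nonneg _) |>.2
  nlinarith [sq_nonneg ‖ζ - p ζ‖]

theorem norm_cut {p : H →L[ℂ] H} (hp : IsPr p) (x : H →L[ℂ] H) : ‖p * x * p‖ ≤ ‖x‖ := by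
  have h1 := norm_pr_le hp
  calc ‖p * x * p‖ ≤ ‖p * x‖ * ‖p‖ := norm_mul_le _ _
    _ ≤ (‖p‖ * ‖x‖) * ‖p‖ := mul_le_mul_of_nonneg_right (norm_mul_le _ _) (norm_nonneg _)
    _ ≤ (1 * ‖x‖) * 1 := by gcongr
    _ = ‖x‖ := by ring

theorem compl_pr {p : H →L[ℂ] H} (hp : IsPr p) : IsPr (1 - p) := by
  refine ⟨by rw [star_sub, star_one, hp.1], ?_⟩
  rw [mul_sub, mul_one, sub_mul, one_mul, hp.2, sub_self, sub_zero]

/-- compression and projection -/
def cutQ (p : H →L[ℂ] H) (Q : (H →L[ℂ] H) →ₗ[ℂ] (H →L[ℂ] H)) : (H →L[ℂ] H) →ₗ[ℂ] (H →L[ℂ] H) :=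
  Q ∘ₗ (LinearMap.mulLeft ℂ p ∘ₗ LinearMap.mulRight ℂ p)

theorem cutQ_apply (p : H →L[ℂ] H) (Q : (H →L[ℂ] H) →ₗ[ℂ] (H →L[ℂ] H)) (x : H →L[ℂ] H) :
    cutQ p Q x = Q (p * x * p) := by
  simp [cutQ, mul_assoc]

theorem join_cp (M : VonNeumannAlgebra H) {p q : H →L[ℂ] H} (hp : IsCP M p) (hq : IsCP M q) :
    IsCP M (p + (1 - p) * q) := by
  obtain ⟨⟨hp1, hp2⟩, hp3, hp4⟩ := hp
  obtain ⟨⟨hq1, hq2⟩, hq3, hq4⟩ := hq
  have hc : p * q = q * p := hp4 q hq3
  refine ⟨⟨?_, ?_⟩, ?_, ?_⟩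
  · rw [star_add, star_mul, star_sub, star_one, hp1, hq1, mul_sub, sub_mul, one_mul, mul_one, hc]
  · have e1 : (p + (1 - p) * q) * (p + (1 - p) * q) =
        p * p + p * q - p * p * q + (q * p - p * (q * p)) + (q * q - q * p * q) - (p * (q * q) - p * (q * p) * q) := by
      noncomm_ring
    rw [e1, ← hc, hp2, hq2]
    have e2 : p * q * q = p * q := by rw [mul_assoc, hq2]
    have e3 : p * (p * q) = p * q := by rw [← mul_assoc, hp2]
    rw [e3, e2]
    noncomm_ring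
  · exact add_mem hp3 (mul_mem (sub_mem (one_mem _) hp3) hq3)
  · intro a ha
    have h1 := hp4 a ha
    have h2 := hq4 a ha
    calc (p + (1 - p) * q) * a = p * a + (q * a) - p * (q * a) := by noncomm_ring
      _ = a * p + a * q - a * p * q := by rw [h1, h2, ← mul_assoc p a q, h1]
      _ = a * (p + (1 - p) * q) := by noncomm_ring

theorem join_inj (M : VonNeumannAlgebra H) {p q : H →L[ℂ] H} (hp : IsCP M p) (hq : IsCP M q)
    (hpi : Inj M p) (hqi : Inj M q) : Inj M (p + (1 - p) * q) := by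
  obtain ⟨hp0, hp3, hp4⟩ := hp
  obtain ⟨hq0, hq3, hq4⟩ := hq
  obtain ⟨P, hP1, hP2, hP3⟩ := hpi
  obtain ⟨Q, hQ1, hQ2, hQ3⟩ := hqi
  have hc : p * q = q * p := hp4 q hq3
  have hpp := hp0.2
  have hqq := hq0.2
  refine ⟨cutQ p P + LinearMap.mulLeft ℂ (1 - p) ∘ₗ cutQ q Q, fun x => ?_, fun x => ?_,
    fun m hm h1 h2 => ?_⟩
  · simp only [LinearMap.add_apply, LinearMap.comp_apply, LinearMap.mulLeft_apply, cutQ_apply]
    obtain ⟨hA0, hA1, hA2⟩ := hP2 (p * x * p)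
    obtain ⟨hB0, hB1, hB2⟩ := hQ2 (q * x * q)
    refine norm_add_le_orth hp0 hA1 hA2 ?_ ?_ (norm_nonneg _) ((hP1 _).trans (norm_cut hp0 x)) ?_
    · rw [← mul_assoc, mul_sub, mul_one, hpp, sub_self, zero_mul]
    · rw [mul_assoc, ← hp4 _ hB0, ← mul_assoc, sub_mul, one_mul, hpp, sub_self, zero_mul]
    · calc ‖(1 - p) * Q (q * x * q)‖ ≤ ‖1 - p‖ * ‖Q (q * x * q)‖ := norm_mul_le _ _
        _ ≤ 1 * ‖x‖ := by
          refine mul_le_mul (norm_pr_le (compl_pr hp0)) ((hQ1 _).trans (norm_cut hq0 x))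
            (norm_nonneg _) zero_le_one
        _ = ‖x‖ := one_mul _
  · simp only [LinearMap.add_apply, LinearMap.comp_apply, LinearMap.mulLeft_apply, cutQ_apply]
    obtain ⟨hA0, hA1, hA2⟩ := hP2 (p * x * p)
    obtain ⟨hB0, hB1, hB2⟩ := hQ2 (q * x * q)
    set A := P (p * x * p)
    set B := Q (q * x * q)
    have hAp := hp4 A hA0
    have hBp := hp4 B hB0
    have hAq := hq4 A hA0
    have hBq := hq4 B hB0
    refine ⟨add_mem hA0 (mul_mem (sub_mem (one_mem _) hp3) hB0), ?_, ?_⟩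
    · calc (p + (1 - p) * q) * (A + (1 - p) * B)
          = p * A + (q * A - q * p * A) + (q * A - p * (q * A)) - (q * A - q * p * A) +
            (p * B - p * p * B) + (q * B - q * p * B - p * (q * B) + p * (q * p) * B) := by
              noncomm_ring
        _ = A + (1 - p) * B := by
          have e1 : q * p * A = q * A := by rw [mul_assoc, hA1]
          have e2 : p * (q * A) = q * A := by rw [← mul_assoc, hc, mul_assoc, hA1]
          have e3 : q * p * B = p * B := by rw [← hc, mul_assoc, hB1]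
          have e4 : p * (q * p) * B = p * B := by rw [← hc, ← mul_assoc, hpp, mul_assoc, hB1]
          rw [hA1, e1, e2, e3, e4, hpp, hB1]
          noncomm_ring
    · calc (A + (1 - p) * B) * (p + (1 - p) * q)
          = A * p + (A * q - A * p * q) + (B * p - p * B * p) + (B * q - B * p * q - p * (B * q)
            + p * (B * p) * q) := by noncomm_ring
        _ = A + (1 - p) * B := by
          have e1 : p * B * p = B * p := by rw [hBp, mul_assoc, hpp]
          have e2 : p * (B * p) = B * p := by rw [← mul_assoc, e1]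
          have e3 : (1 - p) * B = B - B * p := by rw [sub_mul, one_mul, hBp]
          rw [hA2, e1, e2, hB2, e3, hBp]
          noncomm_ring
  · simp only [LinearMap.add_apply, LinearMap.comp_apply, LinearMap.mulLeft_apply, cutQ_apply]
    have hmp := hp4 m hm
    have hmq := hq4 m hm
    rw [hP3 (p * m * p) (mul_mem (mul_mem hp3 hm) hp3) (by rw [← mul_assoc, ← mul_assoc, hpp])
      (by rw [mul_assoc, hpp]), hQ3 (q * m * q) (mul_mem (mul_mem hq3 hm) hq3)
      (by rw [← mul_assoc, ← mul_assoc, hqq]) (by rw [mul_assoc, hqq])]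
    have e1 : p * m * p = p * m := by rw [hmp, mul_assoc, hpp]
    have e2 : q * m * q = q * m := by rw [hmq, mul_assoc, hqq]
    rw [e1, e2]
    calc p * m + (1 - p) * (q * m) = (p + (1 - p) * q) * m := by noncomm_ring
      _ = m := h1

theorem inj_zero (M : VonNeumannAlgebra H) : Inj M 0 :=
  ⟨0, fun x => by simp, fun x => by simp [zero_mem], fun m _ h _ => by
    rw [zero_mul] at h
    rw [← h]
    rfl⟩

theorem cp_zero (M : VonNeumannAlgebra H) : IsCP M 0 :=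
  ⟨⟨star_zero _, zero_mul _⟩, zero_mem _, fun a _ => by rw [zero_mul, mul_zero]⟩

/-- the index set -/
def Ix (M : VonNeumannAlgebra H) : Type := {p : H →L[ℂ] H // IsCP M p ∧ Inj M p}

instance (M : VonNeumannAlgebra H) : Preorder (Ix M) where
  le p q := q.1 * p.1 = p.1
  le_refl p := p.2.1.1.2
  le_trans p q r h1 h2 := by
    change r.1 * p.1 = p.1
    rw [← h1, ← mul_assoc, h2]

theorem join_left {p q : H →L[ℂ] H} (hp : p * p = p) (hc : p * q = q * p) :
    (p + (1 - p) * q) * p = p := by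
  calc (p + (1 - p) * q) * p = p * p + (q * p) - p * (q * p) := by noncomm_ring
    _ = p := by rw [← hc, ← mul_assoc, hp]; abel

theorem join_right {p q : H →L[ℂ] H} (hq : q * q = q) :
    (p + (1 - p) * q) * q = q := by
  calc (p + (1 - p) * q) * q = p * q + (q * q) - p * (q * q) := by noncomm_ring
    _ = q := by rw [hq]; abel

instance (M : VonNeumannAlgebra H) : IsDirectedOrder (Ix M) where
  directed p q :=
    ⟨⟨p.1 + (1 - p.1) * q.1, join_cp M p.2.1 q.2.1, join_inj M p.2.1 q.2.1 p.2.2 q.2.2⟩,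
      join_left p.2.1.1.2 (p.2.1.2.2 q.1 q.2.1.2.1), join_right q.2.1.1.2⟩

instance (M : VonNeumannAlgebra H) : Nonempty (Ix M) := ⟨⟨0, cp_zero M, inj_zero M⟩⟩

/-- union of the ranges -/
def UU (M : VonNeumannAlgebra H) : Submodule ℂ H where
  carrier := {ζ | ∃ p : Ix M, p.1 ζ = ζ}
  zero_mem' := ⟨⟨0, cp_zero M, inj_zero M⟩, by simp⟩
  add_mem' := by
    rintro a b ⟨p, hp⟩ ⟨q, hq⟩
    obtain ⟨r, hr1, hr2⟩ := exists_ge_ge p q
    refine ⟨r, ?_⟩
    have h1 : r.1 a = a := by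
      have h : r.1 * p.1 = p.1 := hr1
      calc r.1 a = (r.1 * p.1) a := by rw [mul_apply_eq_comp, hp]
        _ = a := by rw [h, hp]
    have h2 : r.1 b = b := by
      have h : r.1 * q.1 = q.1 := hr2
      calc r.1 b = (r.1 * q.1) b := by rw [mul_apply_eq_comp, hq]
        _ = b := by rw [h, hq]
    rw [map_add, h1, h2]
  smul_mem' := by
    rintro c a ⟨p, hp⟩
    exact ⟨p, by rw [map_smul, hp]⟩

end GL971

open GL971

theorem bp_glue (h : Z_dir) (h2 : V_span) : Z_glue := by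
  intro H _ _ _ M hM
  obtain ⟨f, hfM, hf, hf1, hf2⟩ := h2 H M {p | IsCP M p ∧ Inj M p} (fun v hv => hv.1.2.1)
  -- `f` is central
  have key : ∀ m ∈ M, m * f = f * m * f := by
    intro m hm
    have h3 := hf2 ((1 - f) * m) (fun v hv => by
      have h4 : m * v = v * m := (hv.1.2.2 m hm).symm
      rw [mul_assoc, h4, ← mul_assoc, sub_mul, one_mul, hf1 v hv, sub_self, zero_mul])
    rw [sub_mul, one_mul, sub_mul] at h3
    exact sub_eq_zero.1 h3
  have hcen : ∀ m ∈ M, f * m = m * f := by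
    intro m hm
    have h3 := congrArg star (key (star m) (star_mem hm))
    rw [star_mul, star_star, hf.1, star_mul, star_mul, star_star, hf.1] at h3
    rw [h3, ← mul_assoc, ← key m hm]
  have hfc : IsCP M f := ⟨hf, hfM, hcen⟩
  have hf1' : f = 1 := by
    by_contra hne
    have hq : IsCP M (1 - f) := ⟨compl_pr hf, sub_mem (one_mem _) hfM, fun a ha => by
      rw [sub_mul, mul_sub, one_mul, mul_one, hcen a ha]⟩
    obtain ⟨p, hp1, hp2, hp3, hp4⟩ := hM (1 - f) hq (fun h0 => hne (sub_eq_zero.1 h0).symm)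
    apply hp2
    rw [← hp3, sub_mul, one_mul, hf1 p ⟨hp1, hp4⟩, sub_self]
  -- density
  have hdense : ∀ ζ : H, ∀ ε : ℝ, 0 < ε → ∃ p : Ix M, ‖p.1 ζ - (1 : H →L[ℂ] H) ζ‖ ≤ ε := by
    have hbot : (UU M)ᗮ = ⊥ := by
      have h3 := hf2 ((UU M)ᗮ.starProjection) (fun v hv => by
        ext ζ
        have h4 : v ζ ∈ UU M := ⟨⟨v, hv⟩, pr_pr hv.1.1 ζ⟩
        have h5 : v ζ ∈ (UU M)ᗮᗮ := Submodule.le_orthogonal_orthogonal _ h4
        rw [mul_apply_eq_comp, ContinuousLinearMap.zero_apply]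
        exact (Submodule.starProjection_apply_eq_zero_iff _).2 h5)
      rw [hf1', mul_one] at h3
      rw [eq_bot_iff]
      intro x hx
      have h6 : (UU M)ᗮ.starProjection x = x := Submodule.starProjection_eq_self_iff.2 hx
      rw [h3] at h6
      rw [Submodule.mem_bot, ← h6]
      rfl
    have htop : (UU M).topologicalClosure = ⊤ := (Submodule.topologicalClosure_eq_top_iff).2 hbot
    intro ζ ε hε
    have hζ : ζ ∈ closure ((UU M : Submodule ℂ H) : Set H) := by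
      rw [← Submodule.topologicalClosure_coe, htop]
      trivial
    obtain ⟨ζ', ⟨p, hp⟩, hd⟩ := Metric.mem_closure_iff.1 hζ ε hε
    refine ⟨p, ?_⟩
    have e1 : p.1 ζ - (1 : H →L[ℂ] H) ζ = -((ζ - ζ') - p.1 (ζ - ζ')) := by
      rw [map_sub, hp, one_apply_eq_self]
      abel
    rw [e1, norm_neg]
    refine (norm_compl_le p.2.1.1 _).trans ?_
    rw [dist_eq_norm] at hd
    exact hd.le
  exact h H M 1 (Ix M) (fun p => p.1) (fun p => ⟨p.2.1.2.1, p.2.1.1, p.2.2⟩) (one_mem _)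
    ⟨star_one _, one_mul _⟩ (fun p => one_mul _) (fun p q hpq => hpq) hdense

end H97R2.BP
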